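import Pool.Agent.N889.AO.Stm

/-!
# Project AO, task LIFT: derivations modulo a large prime lift to integral derivations
-/

set_option autoImplicit false
open Polynomial Matrix
open scoped nonZeroDivisors

namespace Pool.Agent.N475.AO

open Pool.Agent.N889.AO

/-- the linear algebra -/
theorem lin (V W : Type) [AddCommGroup V] [AddCommGroup W] [Module.Finite ℤ W] (φ : V →ₗ[ℤ] W) :
    ∃ B : ℕ, ∀ p : ℕ, p.Prime → B < p → ∀ (x : V) (w : W), φ x = (p : ℤ) • w → ∃ z, φ z = w := by
  set Q := W ⧸ LinearMap.range φ with hQ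
  have hT : Module.IsTorsion ℤ (Submodule.torsion ℤ Q) := Submodule.torsion_isTorsion
  obtain ⟨b, hb1, hb2⟩ := Submodule.annihilator_top_inter_nonZeroDivisors hT
  have hb0 : b ≠ 0 := nonZeroDivisors.ne_zero hb2
  have hann : ∀ t ∈ Submodule.torsion ℤ Q, b • t = 0 := by
    intro t ht
    have h1 := Submodule.mem_annihilator.mp hb1 ⟨t, ht⟩ Submodule.mem_top
    have h2 := congrArg Subtype.val h1
    simpa using h2
  refine ⟨b.natAbs, fun p hp hBp x w hx => ?_⟩
  have hp0 : (p : ℤ) ≠ 0 := by exact_mod_cast hp.ne_zero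
  have h1 : (p : ℤ) • (Submodule.Quotient.mk w : Q) = 0 := by
    rw [← Submodule.Quotient.mk_smul, Submodule.Quotient.mk_eq_zero]
    exact ⟨x, hx⟩
  have h2 : (Submodule.Quotient.mk w : Q) ∈ Submodule.torsion ℤ Q := by
    rw [Submodule.mem_torsion_iff]
    exact ⟨⟨(p : ℤ), mem_nonZeroDivisors_of_ne_zero hp0⟩, h1⟩
  have h3 := hann _ h2
  rw [← Submodule.Quotient.mk_smul, Submodule.Quotient.mk_eq_zero] at h3
  have hcop : IsCoprime (p : ℤ) b := by
    rw [Int.isCoprime_iff_nat_coprime, Int.natAbs_natCast]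
    refine (Nat.Prime.coprime_iff_not_dvd hp).mpr fun hd => ?_
    exact absurd (Nat.le_of_dvd (Int.natAbs_pos.mpr hb0) hd) (not_le.mpr hBp)
  obtain ⟨u, v, huv⟩ := hcop
  have h4 : w ∈ LinearMap.range φ := by
    have h5 : w = u • ((p : ℤ) • w) + v • (b • w) := by
      rw [smul_smul, smul_smul, ← add_smul, huv, one_smul]
    rw [h5]
    exact Submodule.add_mem _ (Submodule.smul_mem _ _ ⟨x, hx⟩) (Submodule.smul_mem _ _ h3)
  exact h4

section
variable {ι : Type} [Fintype ι] [DecidableEq ι] (c : ι → ι → ι → ℤ)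

/-- the defect of the derivation identity on the standard basis -/
def dl (R : Type) [CommRing R] (D : Matrix ι ι R) (i j k : ι) : R :=
  (∑ l, D k l * (c i j l : R)) - ((∑ a, (c a j k : R) * D a i) + ∑ b, (c i b k : R) * D b j)

theorem isDer_dl (R : Type) [CommRing R] (D : Matrix ι ι R) :
    IsDer c R D ↔ ∀ i j k, dl c R D i j k = 0 := by
  rw [isDer_iff]
  refine forall_congr' fun i => forall_congr' fun j => ?_
  rw [funext_iff]
  refine forall_congr' fun k => ?_
  unfold dl
  rw [sub_eq_zero]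
  have h1 : (D *ᵥ mulc c R (Pi.single i 1) (Pi.single j 1)) k = ∑ l, D k l * (c i j l : R) := by
    simp only [Matrix.mulVec, dotProduct]
    refine Finset.sum_congr rfl fun l _ => ?_
    rw [mulc_single]
  have h2 : mulc c R (D *ᵥ Pi.single i 1) (Pi.single j 1) k = ∑ a, (c a j k : R) * D a i := by
    simp [mulc, Pi.single_apply]
  have h3 : mulc c R (Pi.single i 1) (D *ᵥ Pi.single j 1) k = ∑ b, (c i b k : R) * D b j := by
    simp [mulc, Pi.single_apply]
  rw [Pi.add_apply, h1, h2, h3]

/-- the defect as a linear map -/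
def dlL : Matrix ι ι ℤ →ₗ[ℤ] (ι → ι → ι → ℤ) where
  toFun D i j k := dl c ℤ D i j k
  map_add' D D' := by
    funext i j k
    simp only [dl, Matrix.add_apply, Pi.add_apply, add_mul, mul_add, Finset.sum_add_distrib]
    ring
  map_smul' a D := by
    funext i j k
    simp only [dl, Matrix.smul_apply, Pi.smul_apply, smul_eq_mul, RingHom.id_apply, mul_sub,
      mul_add, Finset.mul_sum]
    congr 1
    · exact Finset.sum_congr rfl fun _ _ => by ring
    · congr 1
      · exact Finset.sum_congr rfl fun _ _ => by ring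
      · exact Finset.sum_congr rfl fun _ _ => by ring

omit [DecidableEq ι] in
theorem dl_map (p : ℕ) (x : Matrix ι ι ℤ) (i j k : ι) :
    ((dl c ℤ x i j k : ℤ) : ZMod p) =
      dl c (ZMod p) (x.map (Int.castRingHom (ZMod p))) i j k := by
  simp [dl]

end

theorem stmLift : StmLift := by
  intro ι _ _ c
  obtain ⟨B, hB⟩ := lin _ _ (dlL c)
  refine ⟨B, fun p hpf hBp D hD => ?_⟩
  have hp : p.Prime := hpf.out
  -- an integral lift
  have hsur : Function.Surjective (Int.castRingHom (ZMod p)) := ZMod.intCast_surjective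
  choose ψ hψ using hsur
  set x : Matrix ι ι ℤ := D.map ψ with hx
  have hxD : x.map (Int.castRingHom (ZMod p)) = D := by
    ext i j
    simp only [hx, Matrix.map_apply]
    exact hψ _
  have hdiv : ∀ i j k, ∃ w : ℤ, dl c ℤ x i j k = (p : ℤ) * w := by
    intro i j k
    have h1 := dl_map c p x i j k
    rw [hxD, (isDer_dl c (ZMod p) D).mp hD i j k, ZMod.intCast_zmod_eq_zero_iff_dvd] at h1
    exact h1
  choose w hw using hdiv
  obtain ⟨z, hz⟩ := hB p hp hBp x w (by
    funext i j k
    show dl c ℤ x i j k = _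
    rw [hw i j k]
    simp)
  refine ⟨x - (p : ℤ) • z, ?_, ?_⟩
  · rw [isDer_dl]
    intro i j k
    have h2 : dlL c (x - (p : ℤ) • z) = 0 := by
      rw [map_sub, map_smul, hz]
      funext i j k
      show dl c ℤ x i j k - _ = _
      rw [hw i j k]
      simp
    exact congrFun (congrFun (congrFun h2 i) j) k
  · rw [← hxD]
    ext i j
    rw [Matrix.map_apply, Matrix.map_apply, Matrix.sub_apply, Matrix.smul_apply, smul_eq_mul]
    simp

end Pool.Agent.N475.AO
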